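import Pool.Agent.Helper30.TB.Fibre
import Pool.Agent.Helper46.TB.Ratio

/-!
# Project TB, module TB-J: the fibre bound
-/

set_option autoImplicit false

namespace Pool.Agent.Lead.TB

open Finset

theorem fibre {n k : ℕ} (T₁ T₂ T₃ S : Finset (Fin n)) (h3 : T₃.card = 2 ^ k)
    (hS : S.card = 2 ^ k) (hd : Disjoint T₃ S) (x : ℝ) :
    (((ls n).filter fun σ => cnt σ T₁ T₂ T₃ = 0 ∧ x ≤ (cnt σ T₁ T₂ S : ℝ)).card : ℝ) ≤
      Real.exp (n * loss (2 * 2 ^ k) - Real.log 2 / 2 * x) * ((ls n).card : ℝ) :=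
  fibre_of_ratio (fun G F hG hF => ratio G F hG hF) T₁ T₂ T₃ S h3 hS hd x

end Pool.Agent.Lead.TB
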