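import Pool.Agent.Lead.TB.Defs

/-!
# Project TB, module J: conditioning on the symbols outside `T₃ ∪ S`
-/

set_option autoImplicit false

namespace Pool.Agent.Lead.TB

open Finset

theorem h30_mem_fac {n : ℕ} (ι : Type) [Fintype ι] [DecidableEq ι] (G : Gr n)
    (σ : ι → Equiv.Perm (Fin n)) :
    σ ∈ fac ι G ↔ (∀ i r, σ i r ∈ G r) ∧ ∀ i j, i ≠ j → ∀ r, σ i r ≠ σ j r := by
  simp only [fac, mem_filter, mem_univ, true_and]

theorem h30_mem_av {n : ℕ} (ι : Type) [Fintype ι] [DecidableEq ι] (A : Finset ι) (G F : Gr n)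
    (σ : ι → Equiv.Perm (Fin n)) :
    σ ∈ av ι A G F ↔ σ ∈ fac ι G ∧ ∀ i ∈ A, ∀ r, σ i r ∉ F r := by
  simp only [av, mem_filter]

theorem h30_mem_ls {n : ℕ} (σ : Fin n → Equiv.Perm (Fin n)) :
    σ ∈ ls n ↔ ∀ i j, i ≠ j → ∀ r, σ i r ≠ σ j r := by
  rw [ls, h30_mem_fac]
  exact ⟨fun h => h.2, fun h => ⟨fun _ _ => mem_univ _, h⟩⟩

/-- An enumeration of `T₃ ∪ S` with `T₃` first. -/
theorem h30_enum {n c : ℕ} (T₃ S : Finset (Fin n)) (h3 : T₃.card = c) (hS : S.card = c)
    (hd : Disjoint T₃ S) : ∃ e : Fin (2 * c) → Fin n, Function.Injective e ∧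
      (∀ i : Fin (2 * c), (i : ℕ) < c → e i ∈ T₃) ∧ (∀ i : Fin (2 * c), ¬ (i : ℕ) < c → e i ∈ S) := by
  let a : Fin c → Fin n := fun i => (T₃.equivFinOfCardEq h3).symm i
  let b : Fin c → Fin n := fun i => (S.equivFinOfCardEq hS).symm i
  have ha : Function.Injective a := fun i j h => by
    have := Subtype.ext h
    exact (T₃.equivFinOfCardEq h3).symm.injective this
  have hb : Function.Injective b := fun i j h => by
    have := Subtype.ext h
    exact (S.equivFinOfCardEq hS).symm.injective this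
  have hat : ∀ i, a i ∈ T₃ := fun i => ((T₃.equivFinOfCardEq h3).symm i).2
  have hbt : ∀ i, b i ∈ S := fun i => ((S.equivFinOfCardEq hS).symm i).2
  refine ⟨fun i => if h : (i : ℕ) < c then a ⟨i, h⟩ else b ⟨i - c, by omega⟩, ?_, ?_, ?_⟩
  · intro i j hij
    simp only at hij
    by_cases hi : (i : ℕ) < c <;> by_cases hj : (j : ℕ) < c
    · rw [dif_pos hi, dif_pos hj] at hij
      have := ha hij
      simp only [Fin.mk.injEq] at this
      exact Fin.ext this
    · rw [dif_pos hi, dif_neg hj] at hij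
      exact absurd (hij ▸ hat _) (Finset.disjoint_right.1 hd (hbt _))
    · rw [dif_neg hi, dif_pos hj] at hij
      exact absurd (hat ⟨j, hj⟩) (Finset.disjoint_right.1 hd (hij ▸ hbt ⟨i - c, by omega⟩))
    · rw [dif_neg hi, dif_neg hj] at hij
      have := hb hij
      simp only [Fin.mk.injEq] at this
      exact Fin.ext (by omega)
  · intro i hi
    simp only [dif_pos hi]
    exact hat _
  · intro i hi
    simp only [dif_neg hi]
    exact hbt _

section Fib

variable {n : ℕ} (U : Finset (Fin n)) (σ₀ : Fin n → Equiv.Perm (Fin n))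

/-- The cells which are free for the symbols in `U`. -/
def h30_H : Gr n := fun r => univ.filter fun c => ∀ s ∉ U, σ₀ s r ≠ c

theorem h30_H_mem {r c : Fin n} : c ∈ h30_H U σ₀ r ↔ ∀ s ∉ U, σ₀ s r ≠ c := by
  simp [h30_H]

theorem h30_H_reg (h0 : σ₀ ∈ ls n) : Reg U.card (h30_H U σ₀) := by
  have h0' : ∀ i j, i ≠ j → ∀ r, σ₀ i r ≠ σ₀ j r := (h30_mem_ls σ₀).1 h0
  have hU : (univ \ U).card = n - U.card := by
    rw [Finset.card_univ_sdiff, Fintype.card_fin]
  have hUn : U.card ≤ n := by
    have := Finset.card_le_univ U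
    rwa [Fintype.card_fin] at this
  constructor
  · intro r
    have h1 : h30_H U σ₀ r = univ \ ((univ \ U).image fun s => σ₀ s r) := by
      ext c
      rw [h30_H_mem]
      simp
    rw [h1, Finset.card_univ_sdiff, Fintype.card_fin, Finset.card_image_of_injective, hU]
    · omega
    · intro s s' h
      by_contra hne
      exact h0' s s' hne r h
  · intro c
    have h1 : (univ.filter fun r => c ∈ h30_H U σ₀ r) =
        univ \ ((univ \ U).image fun s => (σ₀ s).symm c) := by
      ext r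
      simp only [mem_filter, mem_univ, true_and, mem_sdiff, mem_image, not_exists, not_and]
      rw [h30_H_mem]
      constructor
      · intro h s hs he
        exact h s hs (by rw [← he]; simp)
      · intro h s hs he
        exact h s hs (by rw [← he]; simp)
    rw [h1, Finset.card_univ_sdiff, Fintype.card_fin, Finset.card_image_of_injective, hU]
    · omega
    · intro s s' h
      by_contra hne
      refine h0' s s' hne ((σ₀ s).symm c) ?_
      have h2 : (σ₀ s).symm c = (σ₀ s').symm c := h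
      rw [Equiv.apply_symm_apply, h2, Equiv.apply_symm_apply]

end Fib

/-- The statement of module I (`ratio`). -/
def RatioStmt (n k : ℕ) : Prop := ∀ G F : Gr n, Reg (2 * 2 ^ k) G → (∀ r, F r ⊆ G r) →
    ((av (Fin (2 * 2 ^ k)) (univ.filter fun i : Fin (2 * 2 ^ k) => (i : ℕ) < 2 ^ k) G F).card : ℝ)
      ≤ Real.exp (n * loss (2 * 2 ^ k) - Real.log 2 / 2 * (∑ r, (F r).card : ℕ)) *
        ((fac (Fin (2 * 2 ^ k)) G).card : ℝ)

theorem fibre_of_ratio {n k : ℕ} (ratio : RatioStmt n k)
    (T₁ T₂ T₃ S : Finset (Fin n)) (h3 : T₃.card = 2 ^ k)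
    (hS : S.card = 2 ^ k) (hd : Disjoint T₃ S) (x : ℝ) :
    (((ls n).filter fun σ => cnt σ T₁ T₂ T₃ = 0 ∧ x ≤ (cnt σ T₁ T₂ S : ℝ)).card : ℝ) ≤
      Real.exp (n * loss (2 * 2 ^ k) - Real.log 2 / 2 * x) * ((ls n).card : ℝ) := by
  classical
  obtain ⟨e, he, he3, heS⟩ := h30_enum T₃ S h3 hS hd
  set U := T₃ ∪ S with hUdef
  have hUc : U.card = 2 * 2 ^ k := by
    rw [hUdef, Finset.card_union_of_disjoint hd, h3, hS]
    ring
  have heU : ∀ i, e i ∈ U := by
    intro i
    by_cases hi : (i : ℕ) < 2 ^ k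
    · exact Finset.mem_union_left _ (he3 i hi)
    · exact Finset.mem_union_right _ (heS i hi)
  have hes : ∀ s ∈ U, ∃ i, e i = s := by
    intro s hs
    have h1 : univ.image e = U := by
      refine Finset.eq_of_subset_of_card_le ?_ ?_
      · intro t ht
        obtain ⟨i, -, rfl⟩ := Finset.mem_image.1 ht
        exact heU i
      · rw [Finset.card_image_of_injective _ he, Finset.card_univ, Fintype.card_fin, hUc]
    rw [← h1] at hs
    obtain ⟨i, -, hi⟩ := Finset.mem_image.1 hs
    exact ⟨i, hi⟩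
  set K := Real.exp (n * loss (2 * 2 ^ k) - Real.log 2 / 2 * x) with hK
  let ρ : (Fin n → Equiv.Perm (Fin n)) → (Fin n → Equiv.Perm (Fin n)) :=
    fun σ s => if s ∈ U then 1 else σ s
  set ev := (ls n).filter fun σ => cnt σ T₁ T₂ T₃ = 0 ∧ x ≤ (cnt σ T₁ T₂ S : ℝ) with hev
  have key : ∀ τ : Fin n → Equiv.Perm (Fin n),
      ((ev.filter fun σ => ρ σ = τ).card : ℝ) ≤ K * (((ls n).filter fun σ => ρ σ = τ).card : ℝ) := by
    intro τ
    have hK0 : 0 ≤ K := (Real.exp_pos _).le
    rcases (ev.filter fun σ => ρ σ = τ).eq_empty_or_nonempty with h | ⟨σ₀, hσ₀⟩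
    · rw [h]
      simp only [Finset.card_empty, Nat.cast_zero]
      positivity
    rw [Finset.mem_filter, hev, Finset.mem_filter] at hσ₀
    obtain ⟨⟨hσl, hσ3, hσx⟩, hστ⟩ := hσ₀
    have hdis : ∀ σ ∈ ls n, ∀ i j, i ≠ j → ∀ r, σ i r ≠ σ j r := by
      intro σ hσ
      exact (h30_mem_ls σ).1 hσ
    have hout : ∀ σ, ρ σ = τ → ∀ s ∉ U, σ s = σ₀ s := by
      intro σ hσ s hs
      have h1 : ρ σ s = ρ σ₀ s := by rw [hσ, hστ]
      simpa only [ρ, if_neg hs] using h1
    let H := h30_H U σ₀
    let F : Gr n := fun r => if r ∈ T₁ then H r ∩ T₂ else ∅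
    have hH : Reg (2 * 2 ^ k) H := by
      rw [← hUc]
      exact h30_H_reg U σ₀ hσl
    have hF : ∀ r, F r ⊆ H r := by
      intro r
      simp only [F]
      split_ifs
      · exact Finset.inter_subset_left
      · exact Finset.empty_subset _
    -- members of the fibre lie in `H`
    have hinH : ∀ σ ∈ ls n, ρ σ = τ → ∀ t ∈ U, ∀ r, σ t r ∈ H r := by
      intro σ hσ hρ t ht r
      rw [h30_H_mem]
      intro s hs
      rw [← hout σ hρ s hs]
      exact hdis σ hσ s t (fun h => hs (h ▸ ht)) r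
    have hcnt : (cnt σ₀ T₁ T₂ S : ℝ) ≤ ((∑ r, (F r).card : ℕ) : ℝ) := by
      have h1 : cnt σ₀ T₁ T₂ S = ∑ r ∈ T₁, (S.filter fun s => σ₀ s r ∈ T₂).card := by
        simp only [cnt, Finset.card_filter]
        exact Finset.sum_comm
      have h2 : ∑ r ∈ T₁, (S.filter fun s => σ₀ s r ∈ T₂).card ≤ ∑ r ∈ T₁, (F r).card := by
        refine Finset.sum_le_sum fun r hr => ?_
        have h3 : (S.filter fun s => σ₀ s r ∈ T₂).image (fun s => σ₀ s r) ⊆ F r := by
          intro c hc
          obtain ⟨s, hs, rfl⟩ := Finset.mem_image.1 hc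
          rw [Finset.mem_filter] at hs
          simp only [F, if_pos hr, Finset.mem_inter]
          exact ⟨hinH σ₀ hσl hστ s (Finset.mem_union_right _ hs.1) r, hs.2⟩
        refine le_trans (le_of_eq ?_) (Finset.card_le_card h3)
        rw [Finset.card_image_of_injective]
        intro s s' h
        by_contra hne
        exact hdis σ₀ hσl s s' hne r h
      have h3 : ∑ r ∈ T₁, (F r).card ≤ ∑ r, (F r).card :=
        Finset.sum_le_sum_of_subset (Finset.subset_univ _)
      exact_mod_cast (h1 ▸ h2).trans h3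
    have hrat := ratio H F hH hF
    have hA : (ev.filter fun σ => ρ σ = τ).card ≤
        (av (Fin (2 * 2 ^ k)) (univ.filter fun i : Fin (2 * 2 ^ k) => (i : ℕ) < 2 ^ k) H F).card := by
      refine Finset.card_le_card_of_injOn (fun σ i => σ (e i)) ?_ ?_
      · intro σ hσ
        rw [Finset.mem_coe, Finset.mem_filter, hev, Finset.mem_filter] at hσ
        obtain ⟨⟨hl, h30, -⟩, hρ⟩ := hσ
        rw [Finset.mem_coe, h30_mem_av, h30_mem_fac]
        refine ⟨⟨fun i r => hinH σ hl hρ _ (heU i) r, fun i j hij r =>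
          hdis σ hl _ _ (fun h => hij (he h)) r⟩, ?_⟩
        intro i hi r hr
        rw [Finset.mem_filter] at hi
        have hT : e i ∈ T₃ := he3 i hi.2
        simp only [F] at hr
        by_cases hrT : r ∈ T₁
        · rw [if_pos hrT, Finset.mem_inter] at hr
          have h4 := (Finset.sum_eq_zero_iff.1 h30) (e i) hT
          rw [Finset.card_eq_zero, Finset.filter_eq_empty_iff] at h4
          exact h4 hrT hr.2
        · rw [if_neg hrT] at hr
          exact absurd hr (Finset.notMem_empty _)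
      · intro σ hσ σ' hσ' h
        rw [Finset.mem_coe, Finset.mem_filter] at hσ hσ'
        funext s
        by_cases hs : s ∈ U
        · obtain ⟨i, rfl⟩ := hes s hs
          exact congrFun h i
        · rw [hout σ hσ.2 s hs, hout σ' hσ'.2 s hs]
    have hB : (fac (Fin (2 * 2 ^ k)) H).card ≤ ((ls n).filter fun σ => ρ σ = τ).card := by
      let Ψ : (Fin (2 * 2 ^ k) → Equiv.Perm (Fin n)) → (Fin n → Equiv.Perm (Fin n)) :=
        fun ω s => if h : s ∈ U then ω (Classical.choose (hes s h)) else σ₀ s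
      have hΨe : ∀ ω i, Ψ ω (e i) = ω i := by
        intro ω i
        simp only [Ψ, dif_pos (heU i)]
        congr 1
        exact he (Classical.choose_spec (hes (e i) (heU i)))
      have hΨo : ∀ ω, ∀ s ∉ U, Ψ ω s = σ₀ s := by
        intro ω s hs
        simp only [Ψ, dif_neg hs]
      refine Finset.card_le_card_of_injOn Ψ ?_ ?_
      · intro ω hω
        rw [Finset.mem_coe, h30_mem_fac] at hω
        obtain ⟨hω1, hω2⟩ := hω
        rw [Finset.mem_coe, Finset.mem_filter]
        refine ⟨?_, ?_⟩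
        · rw [h30_mem_ls]
          have hmix : ∀ s ∈ U, ∀ t ∉ U, ∀ r, Ψ ω s r ≠ Ψ ω t r := by
            intro s hs t ht r
            obtain ⟨i, rfl⟩ := hes s hs
            rw [hΨe, hΨo ω t ht]
            exact ((h30_H_mem U σ₀).1 (hω1 i r) t ht).symm
          intro s t hst r
          by_cases hs : s ∈ U <;> by_cases ht : t ∈ U
          · obtain ⟨i, rfl⟩ := hes s hs
            obtain ⟨j, rfl⟩ := hes t ht
            rw [hΨe, hΨe]
            exact hω2 i j (fun h => hst (h ▸ rfl)) r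
          · exact hmix s hs t ht r
          · exact (hmix t ht s hs r).symm
          · rw [hΨo ω s hs, hΨo ω t ht]
            exact hdis σ₀ hσl s t hst r
        · rw [← hστ]
          funext s
          by_cases hs : s ∈ U
          · simp only [ρ, if_pos hs]
          · simp only [ρ, if_neg hs]
            exact hΨo ω s hs
      · intro ω _ ω' _ h
        funext i
        rw [← hΨe ω i, ← hΨe ω' i, h]
    calc ((ev.filter fun σ => ρ σ = τ).card : ℝ)
        ≤ ((av (Fin (2 * 2 ^ k)) (univ.filter fun i : Fin (2 * 2 ^ k) => (i : ℕ) < 2 ^ k)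
            H F).card : ℝ) := by exact_mod_cast hA
      _ ≤ Real.exp (n * loss (2 * 2 ^ k) - Real.log 2 / 2 * (∑ r, (F r).card : ℕ)) *
          ((fac (Fin (2 * 2 ^ k)) H).card : ℝ) := hrat
      _ ≤ K * (((ls n).filter fun σ => ρ σ = τ).card : ℝ) := by
          refine mul_le_mul ?_ (by exact_mod_cast hB) (Nat.cast_nonneg _) hK0
          rw [hK]
          refine Real.exp_le_exp.2 ?_
          have h2 : 0 ≤ Real.log 2 := Real.log_nonneg (by norm_num)
          nlinarith [hσx.trans hcnt]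
  have hsum : ∀ A : Finset (Fin n → Equiv.Perm (Fin n)),
      (A.card : ℝ) = ∑ τ : Fin n → Equiv.Perm (Fin n), ((A.filter fun σ => ρ σ = τ).card : ℝ) := by
    intro A
    have h1 := Finset.card_eq_sum_card_fiberwise (s := A) (t := univ) (f := ρ)
      (fun _ _ => Finset.mem_coe.2 (Finset.mem_univ _))
    exact_mod_cast h1
  rw [hsum ev, hsum (ls n), Finset.mul_sum]
  exact Finset.sum_le_sum fun τ _ => key τ

end Pool.Agent.Lead.TB
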